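import Mathlib

/-!
# A third Askey-Wilson element that is diagonalizable but gives no Leonard triple

Over every field of characteristic zero there is a Leonard pair `A`, `As` on a space of
dimension `3` and a linear map `Ae` satisfying conditions (i)-(iv) of the problem such that
`Ae` is diagonalizable but `A`, `As`, `Ae` is not a Leonard triple.
-/

namespace Pool.Agent.Results.MP_b3a6b1_al.DiagNotTriple

open Matrix Module

/-- A square matrix is irreducible tridiagonal: the entries off the three central diagonals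
vanish, and every entry on the sub- and superdiagonal is nonzero. -/
def IrredTridiagonal {K : Type*} [Field K] {n : ℕ} (M : Matrix (Fin n) (Fin n) K) : Prop :=
  (∀ i j : Fin n, (i : ℕ) + 1 < j ∨ (j : ℕ) + 1 < i → M i j = 0) ∧
    (∀ i j : Fin n, (i : ℕ) + 1 = j ∨ (j : ℕ) + 1 = i → M i j ≠ 0)

section

variable {K V : Type*} [Field K] [AddCommGroup V] [Module K V]

/-- Some basis makes the linear map diagonal. -/
def Diagonalizable (A : V →ₗ[K] V) : Prop :=
  ∃ (n : ℕ) (b : Basis (Fin n) K V), (LinearMap.toMatrix b b A).IsDiag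

/-- Leonard pair: (a) some basis makes `A` diagonal and `B` irreducible tridiagonal,
(b) some basis makes `B` diagonal and `A` irreducible tridiagonal. -/
def LeonardPair (A B : V →ₗ[K] V) : Prop :=
  (∃ (n : ℕ) (b : Basis (Fin n) K V), (LinearMap.toMatrix b b A).IsDiag ∧
      IrredTridiagonal (LinearMap.toMatrix b b B)) ∧
    (∃ (n : ℕ) (b : Basis (Fin n) K V), (LinearMap.toMatrix b b B).IsDiag ∧
      IrredTridiagonal (LinearMap.toMatrix b b A))

/-- Leonard triple: for each of the three maps, some basis makes it diagonal and the other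
two irreducible tridiagonal. -/
def LeonardTriple (A B C : V →ₗ[K] V) : Prop :=
  (∃ (n : ℕ) (b : Basis (Fin n) K V), (LinearMap.toMatrix b b A).IsDiag ∧
      IrredTridiagonal (LinearMap.toMatrix b b B) ∧
      IrredTridiagonal (LinearMap.toMatrix b b C)) ∧
    (∃ (n : ℕ) (b : Basis (Fin n) K V), (LinearMap.toMatrix b b B).IsDiag ∧
      IrredTridiagonal (LinearMap.toMatrix b b C) ∧
      IrredTridiagonal (LinearMap.toMatrix b b A)) ∧
    (∃ (n : ℕ) (b : Basis (Fin n) K V), (LinearMap.toMatrix b b C).IsDiag ∧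
      IrredTridiagonal (LinearMap.toMatrix b b A) ∧
      IrredTridiagonal (LinearMap.toMatrix b b B))

/-- The Askey-Wilson relations for the ordered pair `B`, `C`. -/
def AskeyWilson {R : Type*} [Ring R] [Algebra K R] (B C : R) : Prop :=
  ∃ β γ γs ρ ρs ω η ηs : K,
    B * B * C - β • (B * C * B) + C * B * B - γ • (B * C + C * B) - ρ • C
        = γs • (B * B) + ω • B + η • (1 : R) ∧
      C * C * B - β • (C * B * C) + B * C * C - γs • (C * B + B * C) - ρs • B
        = γ • (C * C) + ω • C + ηs • (1 : R)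

/-- Conditions (i)-(iv) on the third element `Ae`. -/
def ThirdElement (A As Ae : V →ₗ[K] V) : Prop :=
  Ae ∈ Submodule.span K {1, A, As, A * As, As * A} ∧
    A ∈ Submodule.span K {1, As, Ae, As * Ae, Ae * As} ∧
    As ∈ Submodule.span K {1, Ae, A, Ae * A, A * Ae} ∧
    (AskeyWilson (K := K) A As ∧ AskeyWilson (K := K) As A) ∧
    (AskeyWilson (K := K) As Ae ∧ AskeyWilson (K := K) Ae As) ∧
    (AskeyWilson (K := K) A Ae ∧ AskeyWilson (K := K) Ae A)

end

variable {K : Type*} [Field K]

theorem AskeyWilson.symm {R : Type*} [Ring R] [Algebra K R] {B C : R}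
    (h : AskeyWilson (K := K) B C) : AskeyWilson (K := K) C B := by
  obtain ⟨β, γ, γs, ρ, ρs, ω, η, ηs, h1, h2⟩ := h
  refine ⟨β, γs, γ, ρs, ρ, ω, ηs, η, ?_, ?_⟩
  · rw [← h2]
  · rw [← h1]

theorem AskeyWilson.map {R S : Type*} [Ring R] [Algebra K R] [Ring S] [Algebra K S]
    (f : R →ₐ[K] S) {B C : R} (h : AskeyWilson (K := K) B C) :
    AskeyWilson (K := K) (f B) (f C) := by
  obtain ⟨β, γ, γs, ρ, ρs, ω, η, ηs, h1, h2⟩ := h
  refine ⟨β, γ, γs, ρ, ρs, ω, η, ηs, ?_, ?_⟩
  · have := congrArg f h1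
    simpa only [map_add, map_sub, map_mul, map_smul, map_one] using this
  · have := congrArg f h2
    simpa only [map_add, map_sub, map_mul, map_smul, map_one] using this

/-- `A = diag(-5, 0, 7)`. -/
def MA (K : Type*) [Field K] : Matrix (Fin 3) (Fin 3) K := !![-5, 0, 0; 0, 0, 0; 0, 0, 7]

/-- The matrix of `A*`. -/
def MS (K : Type*) [Field K] : Matrix (Fin 3) (Fin 3) K := !![0, 21, 0; 1, 0, 15; 0, 1, 0]

/-- The matrix of `Ae = A + A*`. -/
def ME (K : Type*) [Field K] : Matrix (Fin 3) (Fin 3) K := !![-5, 21, 0; 1, 0, 15; 0, 1, 7]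

theorem ME_eq : ME K = MA K + MS K := by
  ext i j
  fin_cases i <;> fin_cases j <;> simp [ME, MA, MS]

theorem MA_eq : MA K = ME K - MS K := by rw [ME_eq]; simp

theorem MS_eq : MS K = ME K - MA K := by rw [ME_eq]; simp

/-- A pair of mutually inverse matrices gives a basis in which `toLinAlgEquiv' M` has the
matrix `Q * M * P`. -/
theorem exists_basis (P Q : Matrix (Fin 3) (Fin 3) K) (h1 : P * Q = 1) (h2 : Q * P = 1) :
    ∃ b : Basis (Fin 3) K (Fin 3 → K), ∀ M : Matrix (Fin 3) (Fin 3) K,
      LinearMap.toMatrix b b (Matrix.toLinAlgEquiv' M) = Q * M * P := by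
  refine ⟨(Pi.basisFun K (Fin 3)).map (Matrix.toLin'OfInv h2 h1), fun M => ?_⟩
  ext i j
  rw [LinearMap.toMatrix_apply, Basis.map_repr, LinearEquiv.trans_apply, Basis.map_apply,
    Pi.basisFun_repr, Pi.basisFun_apply]
  have h3 : ∀ v, (Matrix.toLin'OfInv h2 h1) v = P *ᵥ v := fun v => by
    rfl
  have h4 : ∀ v, (Matrix.toLin'OfInv h2 h1).symm v = Q *ᵥ v := fun v => by
    rfl
  rw [h3, h4, Matrix.toLinAlgEquiv'_apply, Matrix.mulVec_mulVec, Matrix.mulVec_mulVec,
    Matrix.mulVec_single_one]
  rfl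

set_option maxHeartbeats 2000000 in
theorem aw_MA_MS : AskeyWilson (K := K) (MA K) (MS K) := by
  refine ⟨-1, 2, 0, 35, 36, 0, 0, -72, ?_, ?_⟩ <;> ext i j <;> fin_cases i <;> fin_cases j <;>
    simp [MA, MS] <;> ring

set_option maxHeartbeats 2000000 in
theorem aw_MS_ME : AskeyWilson (K := K) (MS K) (ME K) := by
  refine ⟨-1, 0, 2, 36, 71, 72, -72, -144, ?_, ?_⟩ <;> ext i j <;> fin_cases i <;>
    fin_cases j <;> simp [ME, MS] <;> ring

set_option maxHeartbeats 2000000 in
theorem aw_MA_ME : AskeyWilson (K := K) (MA K) (ME K) := by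
  refine ⟨-1, 2, 2, 35, 71, 70, 0, -72, ?_, ?_⟩ <;> ext i j <;> fin_cases i <;>
    fin_cases j <;> simp [MA, ME] <;> ring

theorem isDiag3 (M : Matrix (Fin 3) (Fin 3) K) (h01 : M 0 1 = 0) (h02 : M 0 2 = 0)
    (h10 : M 1 0 = 0) (h12 : M 1 2 = 0) (h20 : M 2 0 = 0) (h21 : M 2 1 = 0) : M.IsDiag := by
  intro i j hij
  fin_cases i <;> fin_cases j <;> simp_all

theorem irred3 (M : Matrix (Fin 3) (Fin 3) K) (h02 : M 0 2 = 0) (h20 : M 2 0 = 0)
    (h01 : M 0 1 ≠ 0) (h10 : M 1 0 ≠ 0) (h12 : M 1 2 ≠ 0) (h21 : M 2 1 ≠ 0) :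
    IrredTridiagonal M := by
  constructor
  · intro i j hij
    fin_cases i <;> fin_cases j <;> simp_all
  · intro i j hij
    fin_cases i <;> fin_cases j <;> simp_all

theorem leonardPair [CharZero K] :
    LeonardPair (K := K) (Matrix.toLinAlgEquiv' (MA K)) (Matrix.toLinAlgEquiv' (MS K)) := by
  constructor
  · obtain ⟨b, hb⟩ := exists_basis (K := K) 1 1 (by simp) (by simp)
    refine ⟨3, b, ?_, ?_⟩
    · rw [hb]
      apply isDiag3 <;> simp [MA]
    · rw [hb]
      apply irred3 <;> simp [MS]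
  · obtain ⟨b, hb⟩ := exists_basis (K := K) !![21, 15, 21; 6, 0, -6; 1, -1, 1]
      !![1/72, 1/12, 5/24; 1/36, 0, -7/12; 1/72, -1/12, 5/24]
      (by ext i j; fin_cases i <;> fin_cases j <;>
            simp [Matrix.mul_apply, Fin.sum_univ_three] <;> norm_num)
      (by ext i j; fin_cases i <;> fin_cases j <;>
            simp [Matrix.mul_apply, Fin.sum_univ_three] <;> norm_num)
    refine ⟨3, b, ?_, ?_⟩
    · rw [hb]
      apply isDiag3 <;> simp [MS, Matrix.mul_apply, Fin.sum_univ_three] <;> norm_num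
    · rw [hb]
      apply irred3 <;> simp [MA, Matrix.mul_apply, Fin.sum_univ_three] <;> norm_num

theorem diagonalizable [CharZero K] :
    Diagonalizable (K := K) (Matrix.toLinAlgEquiv' (ME K)) := by
  obtain ⟨b, hb⟩ := exists_basis (K := K) !![105, -21, 3; -15, -6, 2; 1, 1, 1]
      !![1/153, -1/51, 1/51; -1/72, -1/12, 5/24; 1/136, 7/68, 105/136]
      (by ext i j; fin_cases i <;> fin_cases j <;>
            simp [Matrix.mul_apply, Fin.sum_univ_three] <;> norm_num)
      (by ext i j; fin_cases i <;> fin_cases j <;>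
            simp [Matrix.mul_apply, Fin.sum_univ_three] <;> norm_num)
  refine ⟨3, b, ?_⟩
  rw [hb]
  apply isDiag3 <;> simp [ME, Matrix.mul_apply, Fin.sum_univ_three] <;> norm_num

/-- An eigenvector of `ME`. -/
theorem eigen (v : Fin 3 → K) (μ : K) (hv : v ≠ 0)
    (h : ME K *ᵥ v = μ • v) :
    v 2 ≠ 0 ∧ v 1 = (μ - 7) * v 2 ∧ v 0 = (μ * (μ - 7) - 15) * v 2 ∧
      (μ + 8) * (μ - 1) * (μ - 9) = 0 := by
  have e0 := congrFun h 0
  have e1 := congrFun h 1
  have e2 := congrFun h 2
  simp [ME, Matrix.mulVec, dotProduct, Fin.sum_univ_three] at e0 e1 e2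
  have h1 : v 1 = (μ - 7) * v 2 := by linear_combination e2
  have h0 : v 0 = (μ * (μ - 7) - 15) * v 2 := by linear_combination e1 + μ * h1
  have h2 : v 2 ≠ 0 := by
    intro h2
    apply hv
    ext i
    fin_cases i
    · simp [h0, h2]
    · simp [h1, h2]
    · simp [h2]
  refine ⟨h2, h1, h0, ?_⟩
  apply mul_right_cancel₀ h2
  linear_combination (-μ - 5) * h0 + 21 * h1 - e0

theorem not_leonardTriple [CharZero K] :
    ¬ LeonardTriple (K := K) (Matrix.toLinAlgEquiv' (MA K)) (Matrix.toLinAlgEquiv' (MS K))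
      (Matrix.toLinAlgEquiv' (ME K)) := by
  rintro ⟨-, -, n, b, hd, ht, -⟩
  have hn : n = 3 := by
    have := Module.finrank_eq_card_basis b
    simpa using this.symm
  subst hn
  -- the diagonal entries are eigenvalues
  have hE : ∀ j, ME K *ᵥ b j = (LinearMap.toMatrix b b (Matrix.toLinAlgEquiv' (ME K)) j j) • b j := by
    intro j
    rw [← Matrix.toLinAlgEquiv'_apply]
    conv_lhs => rw [← b.sum_repr (Matrix.toLinAlgEquiv' (ME K) (b j))]
    rw [Finset.sum_eq_single j]
    · rw [LinearMap.toMatrix_apply]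
    · intro i _ hij
      have h5 : LinearMap.toMatrix b b (Matrix.toLinAlgEquiv' (ME K)) i j = 0 := hd hij
      rw [LinearMap.toMatrix_apply] at h5
      rw [h5, zero_smul]
    · simp
  have hA : MA K *ᵥ b 2 = (LinearMap.toMatrix b b (Matrix.toLinAlgEquiv' (MA K)) 1 2) • b 1 +
      (LinearMap.toMatrix b b (Matrix.toLinAlgEquiv' (MA K)) 2 2) • b 2 := by
    rw [← Matrix.toLinAlgEquiv'_apply]
    conv_lhs => rw [← b.sum_repr (Matrix.toLinAlgEquiv' (MA K) (b 2))]
    rw [Fin.sum_univ_three]
    have := ht.1 0 2 (by simp)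
    rw [LinearMap.toMatrix_apply] at this
    rw [this, zero_smul, zero_add, LinearMap.toMatrix_apply, LinearMap.toMatrix_apply]
  obtain ⟨x2, x1, x0, hx⟩ := eigen (b 1) _ (b.ne_zero 1) (hE 1)
  obtain ⟨y2, y1, y0, hy⟩ := eigen (b 2) _ (b.ne_zero 2) (hE 2)
  generalize LinearMap.toMatrix b b (Matrix.toLinAlgEquiv' (ME K)) 1 1 = μ at *
  generalize LinearMap.toMatrix b b (Matrix.toLinAlgEquiv' (ME K)) 2 2 = ν at *
  generalize LinearMap.toMatrix b b (Matrix.toLinAlgEquiv' (MA K)) 1 2 = r at *
  generalize LinearMap.toMatrix b b (Matrix.toLinAlgEquiv' (MA K)) 2 2 = t at *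
  have a0 := congrFun hA 0
  have a1 := congrFun hA 1
  have a2 := congrFun hA 2
  simp [MA, Matrix.mulVec, dotProduct, Fin.sum_univ_three] at a0 a1 a2
  rw [x0, y0] at a0
  rw [x1, y1] at a1
  generalize b 1 2 = x at *
  generalize b 2 2 = y at *
  have key : y * (12 * (ν * (ν - 7) - 15) - 7 * (ν - 7) * (μ + ν - 7)) = 0 := by
    linear_combination (-1) * a0 + (ν * (ν - 7) - 15) * a2 + (μ + ν - 7) * a1 -
      (μ + ν - 7) * (ν - 7) * a2
  have key2 := (mul_eq_zero.1 key).resolve_left y2
  rcases mul_eq_zero.1 hx with h | h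
  · rcases mul_eq_zero.1 h with h | h
    · obtain rfl : μ = -8 := by linear_combination h
      rcases mul_eq_zero.1 hy with h' | h'
      · rcases mul_eq_zero.1 h' with h' | h'
        · obtain rfl : ν = -8 := by linear_combination h'
          norm_num at key2
        · obtain rfl : ν = 1 := by linear_combination h'
          norm_num at key2
      · obtain rfl : ν = 9 := by linear_combination h'
        norm_num at key2
    · obtain rfl : μ = 1 := by linear_combination h
      rcases mul_eq_zero.1 hy with h' | h'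
      · rcases mul_eq_zero.1 h' with h' | h'
        · obtain rfl : ν = -8 := by linear_combination h'
          norm_num at key2
        · obtain rfl : ν = 1 := by linear_combination h'
          norm_num at key2
      · obtain rfl : ν = 9 := by linear_combination h'
        norm_num at key2
  · obtain rfl : μ = 9 := by linear_combination h
    rcases mul_eq_zero.1 hy with h' | h'
    · rcases mul_eq_zero.1 h' with h' | h'
      · obtain rfl : ν = -8 := by linear_combination h'
        norm_num at key2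
      · obtain rfl : ν = 1 := by linear_combination h'
        norm_num at key2
    · obtain rfl : ν = 9 := by linear_combination h'
      norm_num at key2

/-- Over every field `K` of characteristic zero there are a Leonard pair `A`, `As` on `K^3` and
a map `Ae` satisfying (i)-(iv) such that `Ae` is diagonalizable and `A`, `As`, `Ae` is not a
Leonard triple. -/
theorem result (K : Type*) [Field K] [CharZero K] :
    ∃ A As Ae : (Fin 3 → K) →ₗ[K] (Fin 3 → K),
      LeonardPair A As ∧ ThirdElement A As Ae ∧ Diagonalizable Ae ∧ ¬ LeonardTriple A As Ae := by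
  refine ⟨Matrix.toLinAlgEquiv' (MA K), Matrix.toLinAlgEquiv' (MS K),
    Matrix.toLinAlgEquiv' (ME K), leonardPair, ⟨?_, ?_, ?_, ?_, ?_, ?_⟩, diagonalizable,
    not_leonardTriple⟩
  · rw [ME_eq, map_add]
    exact Submodule.add_mem _ (Submodule.subset_span (by simp)) (Submodule.subset_span (by simp))
  · rw [MA_eq (K := K), map_sub]
    exact Submodule.sub_mem _ (Submodule.subset_span (by simp)) (Submodule.subset_span (by simp))
  · rw [MS_eq (K := K), map_sub]
    exact Submodule.sub_mem _ (Submodule.subset_span (by simp)) (Submodule.subset_span (by simp))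
  · have := (aw_MA_MS (K := K)).map (Matrix.toLinAlgEquiv' (R := K) (n := Fin 3)).toAlgHom
    exact ⟨this, this.symm⟩
  · have := (aw_MS_ME (K := K)).map (Matrix.toLinAlgEquiv' (R := K) (n := Fin 3)).toAlgHom
    exact ⟨this, this.symm⟩
  · have := (aw_MA_ME (K := K)).map (Matrix.toLinAlgEquiv' (R := K) (n := Fin 3)).toAlgHom
    exact ⟨this, this.symm⟩

end Pool.Agent.Results.MP_b3a6b1_al.DiagNotTriple
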