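import Pool.Agent.helper39.AW3.Cubic

/-!
# Spectrum and diagonalizability of the third Askey-Wilson element

For every Leonard pair `A`, `As` over every field and every `Ae` satisfying (i)-(iv): the
eigenvalues of `Ae`, a necessary and sufficient condition for `Ae` to be diagonalizable, and the
equivalence with the Leonard triple property, except that for `d = 2` and `Ae` in the span of
`I`, `A`, `As` the answer is an explicit cubic (in that case the equivalence can fail).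
-/

namespace Pool.Agent.Results.MP_b3a6b1_al.SpectrumThird

open Module Polynomial

/-- A square matrix is irreducible tridiagonal: the entries off the three central diagonals
vanish, and every entry on the sub- and superdiagonal is nonzero. -/
def IrredTridiagonal {K : Type*} [Field K] {n : ℕ} (M : Matrix (Fin n) (Fin n) K) : Prop :=
  (∀ i j : Fin n, (i : ℕ) + 1 < j ∨ (j : ℕ) + 1 < i → M i j = 0) ∧
    (∀ i j : Fin n, (i : ℕ) + 1 = j ∨ (j : ℕ) + 1 = i → M i j ≠ 0)

section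

variable {K V : Type*} [Field K] [AddCommGroup V] [Module K V]

/-- Some basis makes the linear map diagonal. -/
def Diagonalizable (A : V →ₗ[K] V) : Prop :=
  ∃ (n : ℕ) (b : Basis (Fin n) K V), (LinearMap.toMatrix b b A).IsDiag

/-- Leonard triple: for each of the three maps, some basis makes it diagonal and the other
two irreducible tridiagonal. -/
def LeonardTriple (A B C : V →ₗ[K] V) : Prop :=
  (∃ (n : ℕ) (b : Basis (Fin n) K V), (LinearMap.toMatrix b b A).IsDiag ∧
      IrredTridiagonal (LinearMap.toMatrix b b B) ∧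
      IrredTridiagonal (LinearMap.toMatrix b b C)) ∧
    (∃ (n : ℕ) (b : Basis (Fin n) K V), (LinearMap.toMatrix b b B).IsDiag ∧
      IrredTridiagonal (LinearMap.toMatrix b b C) ∧
      IrredTridiagonal (LinearMap.toMatrix b b A)) ∧
    (∃ (n : ℕ) (b : Basis (Fin n) K V), (LinearMap.toMatrix b b C).IsDiag ∧
      IrredTridiagonal (LinearMap.toMatrix b b A) ∧
      IrredTridiagonal (LinearMap.toMatrix b b B))

/-- The Askey-Wilson relations for the ordered pair `B`, `C`. -/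
def AskeyWilson (B C : V →ₗ[K] V) : Prop :=
  ∃ β γ γs ρ ρs ω η ηs : K,
    B * B * C - β • (B * C * B) + C * B * B - γ • (B * C + C * B) - ρ • C
        = γs • (B * B) + ω • B + η • (1 : V →ₗ[K] V) ∧
      C * C * B - β • (C * B * C) + B * C * C - γs • (C * B + B * C) - ρs • B
        = γ • (C * C) + ω • C + ηs • (1 : V →ₗ[K] V)

/-- Conditions (i)-(iv) on the third element `Ae`. -/
def ThirdElement (A As Ae : V →ₗ[K] V) : Prop :=
  Ae ∈ Submodule.span K {1, A, As, A * As, As * A} ∧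
    A ∈ Submodule.span K {1, As, Ae, As * Ae, Ae * As} ∧
    As ∈ Submodule.span K {1, Ae, A, Ae * A, A * Ae} ∧
    (AskeyWilson A As ∧ AskeyWilson As A) ∧
    (AskeyWilson As Ae ∧ AskeyWilson Ae As) ∧
    (AskeyWilson A Ae ∧ AskeyWilson Ae A)

end

section

variable {K : Type*} [Field K]

/-- The base `p`: `1` if `e3 = 0`, and `-e3 / e4` otherwise. -/
noncomputable def base (e3 e4 : K) : K := open Classical in if e3 = 0 then 1 else -e3 / e4

/-- `[j]_p = 1 + p + ⋯ + p ^ (j - 1)`. -/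
def qnum (p : K) (j : ℕ) : K := ∑ i ∈ Finset.range j, p ^ i

/-- The pair `(x, y)` of elements of the extension field `L` of `K` is admissible: with
`p = base e3 e4`, `E = e1 + e3 θs 0 + e4 θs 1` and `F = e2 + e3 θ 1 + e4 θ 0`,
`y (θ d - θ 0 - [d]_p x) = φ` and `E x + F (θs 1 - θs 0 + y) = (e3 - e4) x y`. -/
def Admissible (L : Type*) [Field L] [Algebra K L] (d : ℕ) (θ θs : ℕ → K)
    (e1 e2 e3 e4 φ : K) (x y : L) : Prop :=
  y * (algebraMap K L (θ d - θ 0) - algebraMap K L (qnum (base e3 e4) d) * x)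
      = algebraMap K L φ ∧
    algebraMap K L (e1 + e3 * θs 0 + e4 * θs 1) * x
      + algebraMap K L (e2 + e3 * θ 1 + e4 * θ 0) * (algebraMap K L (θs 1 - θs 0) + y)
      = algebraMap K L (e3 - e4) * (x * y)

/-- The `j`-th eigenvalue attached to the pair `(x, y)`: with `p = base e3 e4`,
`E = e1 + e3 θs 0 + e4 θs 1` and `G = e2 + e3 θ 0 + e4 θ 1`, it is
`e0 + e1 θ 0 + e2 θs 0 + (e3 + e4) θ 0 θs 0 + e4 φ + E (θ d - θ j)
  - E ([d]_p - [j]_p) x - G [j]_{1/p} y`. -/
noncomputable def mu (L : Type*) [Field L] [Algebra K L] (d : ℕ) (θ θs : ℕ → K)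
    (e0 e1 e2 e3 e4 φ : K) (x y : L) (j : ℕ) : L :=
  algebraMap K L (e0 + e1 * θ 0 + e2 * θs 0 + (e3 + e4) * θ 0 * θs 0 + e4 * φ
      + (e1 + e3 * θs 0 + e4 * θs 1) * (θ d - θ j))
    - algebraMap K L ((e1 + e3 * θs 0 + e4 * θs 1)
        * (qnum (base e3 e4) d - qnum (base e3 e4) j)) * x
    - algebraMap K L ((e2 + e3 * θ 0 + e4 * θ 1) * qnum (base e3 e4)⁻¹ j) * y

end

section

variable {K : Type*} [Field K]

theorem base_eq (e3 e4 : K) : base e3 e4 = AW3.pOf e3 e4 := rfl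

theorem qnum_eq (p : K) (j : ℕ) : qnum p j = AW3.br p j := (AW3.br_eq_sum p j).symm

theorem admissible_iff (L : Type*) [Field L] [Algebra K L] (d : ℕ) (θ θs : ℕ → K)
    (e1 e2 e3 e4 φ : K) (x y : L) : Admissible L d θ θs e1 e2 e3 e4 φ x y ↔
      AW3.ParL L d θ θs e1 e2 e3 e4 φ x y := by
  rw [Admissible, AW3.ParL, base_eq, qnum_eq]

theorem mu_eq (L : Type*) [Field L] [Algebra K L] (d : ℕ) (θ θs : ℕ → K)
    (e0 e1 e2 e3 e4 φ : K) (x y : L) (j : ℕ) : mu L d θ θs e0 e1 e2 e3 e4 φ x y j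
      = AW3.evL L d θ θs e0 e1 e2 e3 e4 φ x y j := by
  rw [mu, AW3.evL, base_eq, qnum_eq, qnum_eq, qnum_eq]

end

/-- The spectrum of the third Askey-Wilson element, its diagonalizability and Leonard triples.

`A`, `As` is a Leonard pair on `V` of dimension `d + 1`, with eigenvalues `θ i` and `θs i` in
the order of bases `b`, `bs` as in the definition, and `Ae` satisfies (i)-(iv). -/
theorem result {K V : Type*} [Field K] [AddCommGroup V] [Module K V] [Module.Finite K V]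
    {d : ℕ} (A As Ae : V →ₗ[K] V) (b bs : Basis (Fin (d + 1)) K V) (θ θs : ℕ → K)
    (hb : ∀ i : Fin (d + 1), A (b i) = θ i • b i)
    (hb' : IrredTridiagonal (LinearMap.toMatrix b b As))
    (hbs : ∀ i : Fin (d + 1), As (bs i) = θs i • bs i)
    (hbs' : IrredTridiagonal (LinearMap.toMatrix bs bs A))
    (hT : ThirdElement A As Ae) (e0 e1 e2 e3 e4 φ : K)
    (he : Ae = e0 • (1 : V →ₗ[K] V) + e1 • A + e2 • As + e3 • (A * As) + e4 • (As * A))
    (hφ : φ = (LinearMap.toMatrix bs bs A 0 0 - θ 0) * (θs 0 - θs 1)) :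
    ((d = 2 → e3 ≠ 0) →
      (∃ x y : AlgebraicClosure K,
        Admissible (AlgebraicClosure K) d θ θs e1 e2 e3 e4 φ x y) ∧
      (∀ x y : AlgebraicClosure K,
        Admissible (AlgebraicClosure K) d θ θs e1 e2 e3 e4 φ x y →
        Ae.charpoly.map (algebraMap K (AlgebraicClosure K)) = ∏ j ∈ Finset.range (d + 1),
          (X - C (mu (AlgebraicClosure K) d θ θs e0 e1 e2 e3 e4 φ x y j))) ∧
      (Diagonalizable Ae ↔ ∃ x y : K, Admissible K d θ θs e1 e2 e3 e4 φ x y ∧
        ∀ i j, i ≤ d → j ≤ d → mu K d θ θs e0 e1 e2 e3 e4 φ x y i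
          = mu K d θ θs e0 e1 e2 e3 e4 φ x y j → i = j) ∧
      (Diagonalizable Ae ↔ LeonardTriple A As Ae)) ∧
    (d = 2 → e3 = 0 →
      e4 = 0 ∧
      Ae.charpoly =
        (X - C (e0 + e1 * θ 0 + e2 * θs 0)) * (X - C (e0 + e1 * θ 1 + e2 * θs 1))
            * (X - C (e0 + e1 * θ 2 + e2 * θs 2))
          - C (e1 * e2 * φ) * (X - C (e0 + e1 * θ 2 + e2 * θs 2))
          - C (e1 * e2 * (φ - (θs 1 - θs 0) * (θ 0 - θ 2) + (θs 2 - θs 0) * (θ 1 - θ 2)))
            * (X - C (e0 + e1 * θ 0 + e2 * θs 0)) ∧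
      (Diagonalizable Ae ↔ ∃ r : Fin 3 → K, Function.Injective r ∧
        ∀ i, Ae.charpoly.IsRoot (r i))) := by
  obtain ⟨D, hDθ, hDb, hDa⟩ := AW3.triData_of b θ hb hb'
  obtain ⟨D', hDθ', hDb', hDa'⟩ := AW3.triData_of bs θs hbs hbs'
  have h : AW3.Third A As Ae e0 e1 e2 e3 e4 :=
    AW3.ThirdElement.third (show AW3.ThirdElement A As Ae from hT) he
  have ha : D'.a 0 = LinearMap.toMatrix bs bs A 0 0 := hDa' 0
  have hφ' : φ = AW3.phi1 D D' := by rw [AW3.phi1, ha, hDθ, hDθ', hφ]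
  refine ⟨fun h2 => ⟨?_, ?_, ?_, ?_⟩, ?_⟩
  · obtain ⟨x, y, hxy⟩ := AW3.main_exists (AlgebraicClosure K) h2 D D' h
    refine ⟨x, y, ?_⟩
    rw [admissible_iff, hφ', ← hDθ, ← hDθ']
    exact hxy
  · intro x y hxy
    rw [admissible_iff, hφ', ← hDθ, ← hDθ'] at hxy
    rw [AW3.main_spec (AlgebraicClosure K) h2 D D' h x y hxy]
    refine Finset.prod_congr rfl fun j _ => ?_
    rw [mu_eq, hφ', ← hDθ, ← hDθ']
  · refine (AW3.main_diag h2 D D' h).trans ?_
    simp only [admissible_iff, mu_eq, hφ', ← hDθ, ← hDθ']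
  · exact ⟨fun hC => AW3.triple_of_diag h2 D D' h hC, AW3.LeonardTriple.diag⟩
  · rintro rfl he3
    refine ⟨AW3.e4_zero D D' h he3, ?_, AW3.diag_iff_roots D D' h⟩
    rw [← hDθ, ← hDθ']
    exact AW3.cubic D D' h he3 hφ' rfl rfl rfl rfl

end Pool.Agent.Results.MP_b3a6b1_al.SpectrumThird
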